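import Pool.Agent.H23.GP.Main

/-!
# The disk maximises `λ_4/λ_1` among all open sets of the plane

`dirEig Ω k` (in `Pool/Agent/H94/ER/Defs.lean`) is the `k`-th Dirichlet eigenvalue of `Ω`,
by the Courant-Fischer principle; `uball 2` is the open unit disk.
-/

set_option autoImplicit false

open Pool.Agent.H94.ER

namespace Pool.Agent.Results.MP_db9694_an.PlanarDisk

/-- For every nonempty open set `Ω ⊆ R^2`, `λ_4(Ω) / λ_1(Ω) ≤ λ_4(D) / λ_1(D)`, `D` the unit disk
(written without denominators, and `λ_1(D) > 0`). -/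
theorem result (Ω : Set (E 2)) (hΩ : IsOpen Ω) (hne : Ω.Nonempty) :
    0 < dirEig (uball 2) 1 ∧
    dirEig Ω 4 * dirEig (uball 2) 1 ≤ dirEig (uball 2) 4 * dirEig Ω 1 :=
  Pool.Agent.H23.GP.main_planar Ω hΩ hne

end Pool.Agent.Results.MP_db9694_an.PlanarDisk
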