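import Pool.Agent.H94.ER.Stmt

/-!
# The ball maximises `λ_{N+2}/λ_1` among open sets with an irreducible symmetry containing `-1`

`dirEig Ω k` (in `Pool/Agent/H94/ER/Defs.lean`) is the `k`-th Dirichlet eigenvalue of `Ω`,
by the Courant-Fischer principle.
-/

set_option autoImplicit false

open Pool.Agent.H94.ER

namespace Pool.Agent.Results.MP_db9694_an.SymmetricBall

/-- Let `N ≥ 2` and let `G` be a finite group of linear isometries of `R^N` that acts irreducibly and
contains `-1`. For every nonempty open set `Ω ⊆ R^N` with `g(Ω) = Ω` for all `g ∈ G`,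
`λ_{N+2}(Ω) / λ_1(Ω) ≤ λ_{N+2}(B) / λ_1(B)`, `B` the unit ball (written without denominators,
and `λ_1(B) > 0`). -/
theorem result (N : ℕ) (hN : 2 ≤ N) (G : IsoGroup N) (hfin : Finite G) (hneg : HasNeg G)
    (hirr : Pool.Agent.H94.ER.Irreducible G) (Ω : Set (E N)) (hΩ : IsOpen Ω) (hne : Ω.Nonempty)
    (hG : Preserves G Ω) :
    0 < dirEig (uball N) 1 ∧
    dirEig Ω (N + 2) * dirEig (uball N) 1 ≤ dirEig (uball N) (N + 2) * dirEig Ω 1 :=
  main' N hN G hfin hneg hirr Ω hΩ hne hG

end Pool.Agent.Results.MP_db9694_an.SymmetricBall
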